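import Mathlib
import Pool.Agent.MP_44c6d5_nt.MV.Main

namespace Pool.Agent.Results.MP_44c6d5_nt.FaceMeasure

open Pool.Agent.MP_44c6d5_nt Real MvPolynomial

/-- Let `G` be a non zero integer polynomial, `L` the sum of the absolute values of its
coefficients and `h = 2 log L + log 2`. Let `F` be a non zero integer polynomial whose Mahler
measure belongs to `M(G)` (or is at most some element of `M(G)`), and let `P` be an irreducible
factor of a face polynomial of `F` (for instance `P = F`). If a face polynomial `P_w` of `P` has the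
same Mahler measure as `P`, then `dim P ≤ dim P_w + 1 + 18 h (2 h + log 3) exp (8 h) log L`. -/
theorem result {k q : ℕ} (F P : MvPolynomial (Fin k) ℤ) (G : MvPolynomial (Fin q) ℤ)
    (y w : Fin k → ℝ) (hF : F ≠ 0) (hG : G ≠ 0) (hP : Irreducible P) (hPF : P ∣ ini y F)
    (hw : mahler (ini w P) = mahler P) (hM : ∃ x ∈ MSet G, mahler F ≤ x)
    (h : ℝ) (hh : h = 2 * log (∑ j ∈ G.support, |((coeff j G : ℤ) : ℝ)|) + log 2) :
    (ndim P : ℝ) ≤ ndim (ini w P) + 1 +
      18 * h * (2 * h + log 3) * exp (8 * h) * log (∑ j ∈ G.support, |((coeff j G : ℤ) : ℝ)|) := by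
  obtain ⟨x, hx, hFx⟩ := hM
  have hB : mahler F ≤ log (len G) := hFx.trans (MSet_bdd hG hx)
  have hhB : h = 2 * log (len G) + log 2 := hh
  show (ndim P : ℝ) ≤ ndim (ini w P) + 1 +
      18 * h * (2 * h + log 3) * exp (8 * h) * log (len G)
  set B : ℝ := log (len G) with hBdef
  have hini := ini_ne_zero y hF
  have h1 := mm_dvd_le hini hPF
  have h2 := mm_ini_le y hF
  have hPB : mm P ≤ B := by rw [mahler_eq] at hB; linarith
  rw [mahler_eq, mahler_eq] at hw
  have h3 := face_bound hP w hw.ge hPB
  have h8 : (2 * exp (2 * (2 * B + log 2)) * Phi (2 * B + log 2)) * B =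
      18 * h * (2 * h + log 3) * exp (8 * h) * B := by
    rw [hhB]
    unfold Phi
    have : exp (8 * (2 * B + log 2)) = exp (2 * (2 * B + log 2)) * exp (6 * (2 * B + log 2)) := by
      rw [← Real.exp_add]; congr 1; ring
    rw [this]; ring
  rw [h8] at h3
  exact h3

end Pool.Agent.Results.MP_44c6d5_nt.FaceMeasure
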