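import Mathlib
import Pool.Agent.FLV.Fibre

namespace Pool.Agent.Results.MP_44c6d5_nt.FewLevels

open Pool.Agent.MP_44c6d5_nt Real MvPolynomial

/-- Let `G` be a non zero integer polynomial and `L` the sum of the absolute values of its
coefficients. Let `F` be a non zero integer polynomial whose Mahler measure belongs to `M(G)` (or
is at most some element of `M(G)`), and `P` an irreducible factor of a face polynomial of `F`.
Let `u` be a real vector, `n` the number of values `⟨u, j⟩`, `j` in the support of `P`, and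
suppose that `n ≥ 2`. Then `dim P ≤ 9 h (2 h + log 3) exp (6 h)` with `h = 2 log L + c`, where
* `c = 2 log (n 2 ^ n)`, or
* `c = 2 log (2 n K)`, if `u` is integral and, `a` being the least value, the product of the
  `(m - a) / (m - s)` over the values `m > s` is at most `K` for every value `s`, or
* `c = 4 log (1 + 2 D)`, if the values lie in `{b, b + 1, ..., b + D}` for some real `b`. -/
theorem result {k q : ℕ} (F P : MvPolynomial (Fin k) ℤ) (G : MvPolynomial (Fin q) ℤ)
    (y u : Fin k → ℝ) (hF : F ≠ 0) (hG : G ≠ 0) (hP : Irreducible P)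
    (hPF : P ∣ ini y F)
    (hM : ∃ x ∈ MSet G, mahler F ≤ x)
    (n : ℕ) (hn : n = (P.support.image (wt u)).card) (hn2 : 2 ≤ n)
    (c : ℝ) (hc : c = 2 * log (n * 2 ^ n) ∨
      (∃ K : ℝ, (∀ i, ∃ a : ℤ, u i = a) ∧
        (∀ s ∈ P.support.image (wt u),
          ∏ m ∈ P.support.image (wt u) with s < m, (m - ord u P) / (m - s) ≤ K) ∧
        c = 2 * log (2 * n * K)) ∨
      (∃ (D : ℕ) (b : ℝ), (∀ j ∈ P.support, ∃ m : ℕ, m ≤ D ∧ wt u j = b + m) ∧
        c = 4 * log (1 + 2 * D)))
    (h : ℝ) (hh : h = 2 * log (∑ j ∈ G.support, |((coeff j G : ℤ) : ℝ)|) + c) :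
    (ndim P : ℝ) ≤ 9 * h * (2 * h + log 3) * exp (6 * h) := by
  classical
  obtain ⟨x, hx, hFx⟩ := hM
  have h1 : mahler F ≤ log (len G) := hFx.trans (MSet_bdd hG hx)
  have h2 : h = 2 * log (len G) + c := hh
  have h3 := mahler_nonneg hF
  have hP0 := hP.ne_zero
  have hn2' : (2 : ℝ) ≤ n := by exact_mod_cast hn2
  have hne : ∃ j ∈ P.support, ∃ j' ∈ P.support, wt u j ≠ wt u j' := by
    obtain ⟨a, ha, b, hb, hab⟩ := Finset.one_lt_card.1 (by rw [← hn]; omega :
      1 < (P.support.image (wt u)).card)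
    obtain ⟨j, hj, rfl⟩ := Finset.mem_image.1 ha
    obtain ⟨j', hj', rfl⟩ := Finset.mem_image.1 hb
    exact ⟨j, hj, j', hj', hab⟩
  have key : 0 ≤ c ∧ (ndim P : ℝ) ≤ Phi (2 * mahler F + c) := by
    rcases hc with hc | ⟨K, hint, hK, hc⟩ | ⟨D, b, hD, hc⟩
    · have hc0 : 0 ≤ c := by
        rw [hc]
        have : (1 : ℝ) ≤ 2 ^ n := one_le_pow₀ (by norm_num)
        have : 0 ≤ log ((n : ℝ) * 2 ^ n) := Real.log_nonneg (by nlinarith)
        linarith
      refine ⟨hc0, FLV.ndim_le_H hF y hP hPF hc0 ?_ hne⟩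
      rw [hc, hn]
      exact FLV.H_levels u hP0
    · choose l hl using hint
      have hul : u = rl l := by
        funext i
        exact hl i
      obtain ⟨h5, h6⟩ := FLV.products_transfer hul hP0 hK
      have hne' : (P.support.image (wt u)).Nonempty := by
        rw [← Finset.card_pos, ← hn]; omega
      have hK1 : 1 ≤ K := by
        have hlev : (FLV.lev l P).Nonempty := by
          rw [← Finset.card_pos, h6, ← hn]; omega
        obtain ⟨s, hs⟩ := hlev
        exact (FLV.pr_ge _ s).trans (h5 s hs)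
      have hc0 : 0 ≤ c := by
        rw [hc]
        have : 0 ≤ log (2 * (n : ℝ) * K) := Real.log_nonneg (by nlinarith)
        linarith
      refine ⟨hc0, FLV.ndim_le_H hF y hP hPF (u := u) hc0 ?_ hne⟩
      have h7 := FLV.H_products l hP0 h5
      rw [h6, ← hn, ← mul_assoc, ← hul] at h7
      rw [hc]
      exact h7
    · have hc0 : 0 ≤ c := by
        rw [hc]
        have : (0 : ℝ) ≤ D := by positivity
        have : 0 ≤ log (1 + 2 * (D : ℝ)) := Real.log_nonneg (by linarith)
        linarith
      refine ⟨hc0, ?_⟩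
      rw [hc]
      exact ndim_le_width hF y hP hPF hD hne
  exact key.2.trans (Phi_mono (by linarith [key.1]) (by linarith))

end Pool.Agent.Results.MP_44c6d5_nt.FewLevels
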