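import Mathlib
import Pool.Agent.MP_44c6d5_nt.Seq

namespace Pool.Agent.Results.MP_44c6d5_nt.FewVertices

open Pool.Agent.MP_44c6d5_nt Real MvPolynomial

/-- Let `G` be a non zero integer polynomial, `L` the sum of the absolute values of its
coefficients and `h = 2 log L + log 2`. If the Mahler measure of a non zero integer polynomial `F`
belongs to `M(G)` (or is at most some element of `M(G)`), then the exponent polytope of every
divisor `P` of a face polynomial of `F` (for instance `P = F`) has at least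
`2 ^ (dim P - C)` vertices, with `C = 18 h (2 h + log 3) exp (8 h) log L`. -/
theorem result {k q : ℕ} (F P : MvPolynomial (Fin k) ℤ) (G : MvPolynomial (Fin q) ℤ)
    (y : Fin k → ℝ) (hF : F ≠ 0) (hG : G ≠ 0) (hPF : P ∣ ini y F)
    (hM : ∃ x ∈ MSet G, mahler F ≤ x)
    (h : ℝ) (hh : h = 2 * log (∑ j ∈ G.support, |((coeff j G : ℤ) : ℝ)|) + log 2) :
    (ndim P : ℝ) ≤ logb 2 ((Set.extremePoints ℝ (newton P)).ncard : ℝ) +
      18 * h * (2 * h + log 3) * exp (8 * h) * log (∑ j ∈ G.support, |((coeff j G : ℤ) : ℝ)|) := by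
  obtain ⟨x, hx, hFx⟩ := hM
  have hB : mahler F ≤ log (len G) := hFx.trans (MSet_bdd hG hx)
  have hhB : h = 2 * log (len G) + log 2 := hh
  show (ndim P : ℝ) ≤ logb 2 ((Set.extremePoints ℝ (newton P)).ncard : ℝ) +
      18 * h * (2 * h + log 3) * exp (8 * h) * log (len G)
  set B : ℝ := log (len G) with hBdef
  have hini := ini_ne_zero y hF
  have hP : P ≠ 0 := by
    rintro rfl
    exact hini (zero_dvd_iff.mp hPF)
  have h1 := mm_dvd_le hini hPF
  have h2 := mm_ini_le y hF
  have hPB : mm P ≤ B := by rw [mahler_eq] at hB; linarith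
  have h3 := vert_bound (B := B) k P hP (by omega) hPB
  have h4 := ndim_add_le P
  have h5 : (ndim P : ℝ) + Module.finrank ℝ (Lam P) ≤ k := by exact_mod_cast h4
  have h6 : logb 2 ((vert P).card : ℝ) ≤
      logb 2 ((Set.extremePoints ℝ (newton P)).ncard : ℝ) := by
    apply Real.logb_le_logb_of_le (by norm_num)
    · have := vert_nonempty hP
      exact_mod_cast this
    · exact_mod_cast vert_card_le P
  have hm0 := mm_nonneg hP
  have hB0 : 0 ≤ B := hm0.trans hPB
  have hl2 : 0 ≤ log 2 := Real.log_nonneg (by norm_num)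
  have hC : 0 ≤ 2 * exp (2 * (2 * B + log 2)) * Phi (2 * B + log 2) := by
    have := Phi_nonneg (h := 2 * B + log 2) (by linarith)
    positivity
  have h7 := mul_le_mul_of_nonneg_left hPB hC
  have h8 : (2 * exp (2 * (2 * B + log 2)) * Phi (2 * B + log 2)) * B =
      18 * h * (2 * h + log 3) * exp (8 * h) * B := by
    rw [hhB]
    unfold Phi
    have : exp (8 * (2 * B + log 2)) = exp (2 * (2 * B + log 2)) * exp (6 * (2 * B + log 2)) := by
      rw [← Real.exp_add]; congr 1; ring
    rw [this]; ring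
  rw [h8] at h7
  linarith

end Pool.Agent.Results.MP_44c6d5_nt.FewVertices
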