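import Mathlib
import Pool.Agent.MP_44c6d5_nt.CP.U7
import Pool.Agent.MP_44c6d5_nt.CP.U8

namespace Pool.Agent.Results.MP_44c6d5_nt.MinkowskiSums

open Pool.Agent.MP_44c6d5_nt Pool.Agent.MP_44c6d5_nt.CP Real MvPolynomial
open scoped Pointwise

/-- Let `G` be a non zero integer polynomial and `L` the sum of the absolute values of its
coefficients. Let `F` be a non zero integer polynomial whose Mahler measure belongs to `M(G)` (or is
at most some element of `M(G)`), and let `P` be an irreducible factor of a face polynomial of `F`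
(for instance `P = F`). Let `ini z P` be a face polynomial of `P` (for instance `P`, for `z = 0`),
and let its exponent polytope be a Minkowski sum of polytopes `Q 1, ..., Q p`. Let `v 1, ..., v n` be
integer vectors for which the width of `P` is positive. Call `Q a` good if its width is not zero for
at most `r` of the `v j`. If, for every `j`, the width of `P` in the direction `v j` is at most `B`
times the sum of the widths of the good `Q a`, then `n ≤ r exp (16000 B (log L + 1))`. -/
theorem result {k q n p r : ℕ} (F P : MvPolynomial (Fin k) ℤ) (G : MvPolynomial (Fin q) ℤ)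
    (y z : Fin k → ℝ) (hF : F ≠ 0) (hG : G ≠ 0) (hP : Irreducible P) (hPF : P ∣ ini y F)
    (hM : ∃ x ∈ MSet G, mahler F ≤ x) (L : ℝ)
    (hL : L = ∑ j ∈ G.support, |((coeff j G : ℤ) : ℝ)|)
    (Q : Fin p → Finset (Fin k → ℝ)) (hQ : ∀ a, (Q a).Nonempty)
    (hN : newton (ini z P) = ∑ a, convexHull ℝ (Q a : Set (Fin k → ℝ)))
    (v : Fin n → Fin k → ℤ) (hv : ∀ j, 0 < width (fun i => (v j i : ℝ)) P) (B : ℝ)
    (hwide : ∀ j, width (fun i => (v j i : ℝ)) P ≤
      B * ∑ a with {j : Fin n | wdF (Q a) (fun i => (v j i : ℝ)) ≠ 0}.ncard ≤ r,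
        wdF (Q a) (fun i => (v j i : ℝ))) :
    (n : ℝ) ≤ r * exp (16000 * B * (log L + 1)) := by
  obtain ⟨x, hx, hFx⟩ := hM
  have hB : mahler F ≤ log (len G) := hFx.trans (MSet_bdd hG hx)
  have hini := ini_ne_zero y hF
  have h5 := mm_dvd_le hini hPF
  have h6 := mm_ini_le y hF
  have hLl : L = len G := hL
  have hPB : mm P ≤ log L := by rw [mahler_eq] at hB; rw [hLl]; linarith
  obtain ⟨A, c, h1, h2, h3, h4⟩ := mink_sparse hP.ne_zero z Q hQ hN v hv hwide
  exact sparse_widths hP z v hv A h1 c h2 h3 h4 hPB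

end Pool.Agent.Results.MP_44c6d5_nt.MinkowskiSums
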