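import Mathlib
import Pool.Agent.MP_44c6d5_nt.Seq

namespace Pool.Agent.Results.MP_44c6d5_nt.NonReciprocal

open Pool.Agent.MP_44c6d5_nt Real MvPolynomial

/-- Let `G` be a non zero integer polynomial, `L` the sum of the absolute values of its
coefficients and `h = 2 log L + log 2`. If the Mahler measure of `F` belongs to `M(G)` (or is at
most some element of `M(G)`), then every non reciprocal irreducible factor `P` of a face
polynomial of `F` (for instance of `F` itself, `y = 0`) has dimension at most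
`9 h (2 h + log 3) exp (6 h)`. -/
theorem result {k q : ℕ} (F P : MvPolynomial (Fin k) ℤ) (G : MvPolynomial (Fin q) ℤ)
    (y : Fin k → ℝ) (hF : F ≠ 0) (hG : G ≠ 0) (hP : Irreducible P) (hPF : P ∣ ini y F)
    (hrev : rev P ≠ P) (hrev' : rev P ≠ -P) (hM : ∃ x ∈ MSet G, mahler F ≤ x)
    (h : ℝ) (hh : h = 2 * log (∑ j ∈ G.support, |((coeff j G : ℤ) : ℝ)|) + log 2) :
    (ndim P : ℝ) ≤ 9 * h * (2 * h + log 3) * exp (6 * h) := by
  obtain ⟨x, hx, hFx⟩ := hM
  have h1 : mahler F ≤ log (len G) := hFx.trans (MSet_bdd hG hx)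
  have h2 : h = 2 * log (len G) + log 2 := hh
  have h3 := mahler_nonneg hF
  have h4 : 0 ≤ log 2 := Real.log_nonneg (by norm_num)
  have h5 := ndim_le_rev hF y hP hPF hrev hrev'
  have h6 : Phi (2 * mahler F + log 2) ≤ Phi h := Phi_mono (by linarith) (by linarith)
  exact h5.trans h6

end Pool.Agent.Results.MP_44c6d5_nt.NonReciprocal
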