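import Mathlib
import Pool.Agent.MP_44c6d5_nt.Seq

namespace Pool.Agent.Results.MP_44c6d5_nt.SmallWidth

open Pool.Agent.MP_44c6d5_nt Real MvPolynomial

/-- Let `G` be a non zero integer polynomial and `L` the sum of the absolute values of its
coefficients. Let `F` be a non zero integer polynomial whose Mahler measure belongs to `M(G)` (or
is at most some element of `M(G)`). If the exponents of an irreducible factor `P` of a face
polynomial of `F` (for instance of `F` itself) lie on at most `D + 1` equally spaced parallel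
hyperplanes `⟨u, j⟩ = a + m`, `0 ≤ m ≤ D`, and not all on one of them, then
`dim P ≤ 9 h (2 h + log 3) exp (6 h)` with `h = 2 log L + 4 log (1 + 2 D)`. -/
theorem result {k q : ℕ} (F P : MvPolynomial (Fin k) ℤ) (G : MvPolynomial (Fin q) ℤ)
    (y u : Fin k → ℝ) (a : ℝ) (D : ℕ) (hF : F ≠ 0) (hG : G ≠ 0) (hP : Irreducible P)
    (hPF : P ∣ ini y F) (hD : ∀ j ∈ P.support, ∃ m : ℕ, m ≤ D ∧ wt u j = a + m)
    (hD' : ∃ j ∈ P.support, ∃ j' ∈ P.support, wt u j ≠ wt u j')
    (hM : ∃ x ∈ MSet G, mahler F ≤ x)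
    (h : ℝ) (hh : h = 2 * log (∑ j ∈ G.support, |((coeff j G : ℤ) : ℝ)|) + 4 * log (1 + 2 * D)) :
    (ndim P : ℝ) ≤ 9 * h * (2 * h + log 3) * exp (6 * h) := by
  obtain ⟨x, hx, hFx⟩ := hM
  have h1 : mahler F ≤ log (len G) := hFx.trans (MSet_bdd hG hx)
  have h2 : h = 2 * log (len G) + 4 * log (1 + 2 * (D : ℝ)) := hh
  have h3 := mahler_nonneg hF
  have h4 : 0 ≤ log (1 + 2 * (D : ℝ)) := by
    apply Real.log_nonneg
    have : (0 : ℝ) ≤ D := by positivity
    linarith
  have h5 := ndim_le_width hF y hP hPF hD hD'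
  have h6 : Phi (2 * mahler F + 4 * log (1 + 2 * (D : ℝ))) ≤ Phi h :=
    Phi_mono (by linarith) (by linarith)
  exact h5.trans h6

end Pool.Agent.Results.MP_44c6d5_nt.SmallWidth
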