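import Mathlib
import Pool.Agent.MP_44c6d5_nt.Seq
import Pool.Agent.MP_44c6d5_nt.VertPar3

namespace Pool.Agent.Results.MP_44c6d5_nt.VertexParallelepipeds

open Pool.Agent.MP_44c6d5_nt Real MvPolynomial

/-- Let `G` be a non zero integer polynomial, `L` the sum of the absolute values of its
coefficients and `h = 2 log L + log 2`. Let `F` be a non zero integer polynomial whose Mahler
measure belongs to `M(G)` (or is at most some element of `M(G)`), and let `P` be a divisor of a face
polynomial of `F` (for instance `P = F`). Then every vertex `v` of the exponent polytope of `P` is a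
vertex of a parallelepiped, of dimension `n ≥ dim P - 19 h (2 h + log 3) exp (8 h) log L`, all of
whose `2 ^ n` vertices are vertices of the exponent polytope of `P`, and on which `P` coincides with
a product `c z ^ v (1 + s_1 z ^ (e_1)) ... (1 + s_n z ^ (e_n))` with `s_i = 1` or `-1`. That is:
there are linearly independent vectors `e_i` and signs `s_i` such that for every set `S` of indices
the sum `w` of `v` and the `e_i`, `i ∈ S`, is a vertex, and the coefficient of `P` at `w` is that at
`v` times the product of the `s_i`, `i ∈ S`. -/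
theorem result {k q : ℕ} (F P : MvPolynomial (Fin k) ℤ) (G : MvPolynomial (Fin q) ℤ)
    (y : Fin k → ℝ) (hF : F ≠ 0) (hG : G ≠ 0) (hPF : P ∣ ini y F)
    (hM : ∃ x ∈ MSet G, mahler F ≤ x) (L h : ℝ)
    (hL : L = ∑ j ∈ G.support, |((coeff j G : ℤ) : ℝ)|) (hh : h = 2 * log L + log 2)
    (v : Fin k →₀ ℕ) (hv : (fun i => (v i : ℝ)) ∈ Set.extremePoints ℝ (newton P)) :
    ∃ (n : ℕ) (e : Fin n → Fin k → ℝ) (s : Fin n → ℤ), LinearIndependent ℝ e ∧
      (∀ i, s i = 1 ∨ s i = -1) ∧
      (∀ S : Finset (Fin n), ∃ w : Fin k →₀ ℕ,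
        (fun i => (w i : ℝ)) = (fun i => (v i : ℝ)) + ∑ i ∈ S, e i ∧
        (fun i => (w i : ℝ)) ∈ Set.extremePoints ℝ (newton P) ∧
        coeff w P = coeff v P * ∏ i ∈ S, s i) ∧
      (ndim P : ℝ) ≤ n + 19 * h * (2 * h + log 3) * exp (8 * h) * log L := by
  obtain ⟨x, hx, hFx⟩ := hM
  have hB : mahler F ≤ log (len G) := hFx.trans (MSet_bdd hG hx)
  have hLl : L = len G := hL
  rw [← hLl] at hB
  set B : ℝ := log L with hBdef
  have hini := ini_ne_zero y hF
  have hP : P ≠ 0 := by
    rintro rfl
    exact hini (zero_dvd_iff.mp hPF)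
  have h1 := mm_dvd_le hini hPF
  have h2 := mm_ini_le y hF
  have hPB : mm P ≤ B := by rw [mahler_eq] at hB; linarith
  obtain ⟨n, e, s, he, hs, hS, hdim⟩ := extreme_par hP hPB hv
  refine ⟨n, e, s, he, hs, hS, ?_⟩
  have hm0 := mm_nonneg hP
  have hB0 : 0 ≤ B := hm0.trans hPB
  have hl2 : 0 ≤ log 2 := Real.log_nonneg (by norm_num)
  rw [← hh] at hdim
  have hhl : log 2 ≤ h := by rw [hh]; linarith
  have h18 := Phi_ge hhl
  have hC : 0 ≤ 2 * exp (2 * h) * (Phi h + 1) := by positivity
  have h7 := mul_le_mul_of_nonneg_left hPB hC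
  have h8 : 2 * exp (2 * h) * (Phi h + 1) ≤ 19 * h * (2 * h + log 3) * exp (8 * h) := by
    have h9 : exp (8 * h) = exp (2 * h) * exp (6 * h) := by
      rw [← Real.exp_add]; congr 1; ring
    have h10 : 19 * h * (2 * h + log 3) * exp (8 * h) = 2 * exp (2 * h) * (Phi h + Phi h / 18) := by
      rw [h9]; unfold Phi; ring
    rw [h10]
    have h11 := Real.exp_pos (2 * h)
    apply mul_le_mul_of_nonneg_left _ (by positivity)
    linarith
  have h12 := mul_le_mul_of_nonneg_right h8 hB0
  linarith

end Pool.Agent.Results.MP_44c6d5_nt.VertexParallelepipeds
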